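import Pool.Agent.Lib_MP_49858b_nt.Final

/-!
Every finite Sidon set `A` of `k` positive integers, all at most `N`, satisfies
`N ≥ k ^ 2 - (4 √2 / 3) k ^ (3 / 2) - 50 k`.
-/

set_option autoImplicit false

namespace Pool.Agent.Results.MP_49858b_nt.DiameterBound

theorem result :
    ∀ A : Finset ℕ, (∀ x ∈ A, 0 < x) →
      (∀ a ∈ A, ∀ b ∈ A, ∀ x ∈ A, ∀ y ∈ A, a + b = x + y →
        (a = x ∧ b = y) ∨ (a = y ∧ b = x)) →
      ∀ N : ℕ, (∀ x ∈ A, x ≤ N) →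
        (A.card : ℝ) ^ 2 - 4 * √2 / 3 * (A.card : ℝ) ^ (3 / 2 : ℝ) - 50 * (A.card : ℝ)
          ≤ (N : ℝ) :=
  fun A hpos hA N hN => MP49858b.main A hpos hA N hN

end Pool.Agent.Results.MP_49858b_nt.DiameterBound
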