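import Pool.Agent.Lib_MP_49858b_av.Asm3
import Pool.Agent.Lib_MP_49858b_av.U3

/-!
# Differences on average

A finite Sidon set is a set in which every positive integer `d` is at most once a difference of two elements.
We consider finite families `A 0, ..., A (M - 1)` of `k`-element subsets of `{1, ..., N}` in which every
`d ≥ 1` is a difference at most `lam` times on average over the family. Part (1): then
`lam N ≥ k^2 - (4 √2 / 3) k^(3/2) - 60 k`. Part (2): the constant `4 √2 / 3` is best possible, for every `lam`.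
-/

set_option autoImplicit false

namespace Pool.Agent.Results.MP_49858b_nt.DifferencesOnAverage

theorem result :
    (∀ (lam : ℝ) (k N M : ℕ) (A : Fin M → Finset ℕ), 0 < lam → 0 < M →
      (∀ i, A i ⊆ Finset.Icc 1 N ∧ (A i).card = k) →
      (∀ d : ℕ, 0 < d →
        (∑ i, (((A i).filter (fun x => x + d ∈ A i)).card : ℝ)) ≤ lam * M) →
      (k : ℝ) ^ 2 - 4 * √2 / 3 * (k : ℝ) ^ (3 / 2 : ℝ) - 60 * k ≤ lam * N) ∧
    (∀ lam ε : ℝ, 0 < lam → 0 < ε → ∃ k₀ : ℕ, ∀ k : ℕ, k₀ ≤ k →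
      ∃ (N M : ℕ) (A : Fin M → Finset ℕ), 0 < M ∧
        (∀ i, A i ⊆ Finset.Icc 1 N ∧ (A i).card = k) ∧
        (∀ d : ℕ, 0 < d →
          (∑ i, (((A i).filter (fun x => x + d ∈ A i)).card : ℝ)) ≤ lam * M) ∧
        lam * N ≤ (k : ℝ) ^ 2 - (4 * √2 / 3 - ε) * (k : ℝ) ^ (3 / 2 : ℝ)) :=
  ⟨fun lam k N M A hlam hM hA hd => SidonAvg.upper lam k N M A hlam hM hA hd,
    fun lam ε hlam hε => SidonAvg.lower lam ε hlam hε⟩

end Pool.Agent.Results.MP_49858b_nt.DifferencesOnAverage
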